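import Mathlib

/-!
Higgs bundles in the Hitchin section over the complex line `X = ℂ`, and harmonic metrics on
them, written in the global holomorphic frame `(dz)^((n+1-2i)/2)`, `i = 1, …, n`, of the bundle
`K_{X,n} = ⊕ K_X^((n+1-2i)/2)`.
-/

open Matrix Complex
open scoped ComplexOrder

namespace Pool.Agent.V11191.HB

/-- The coefficient matrix `A(z)` of the Higgs field `θ(q) = A(z) dz` of the Hitchin section
in the frame `(dz)^((n+1-2i)/2)`. Here `q j` is the coefficient of the `j`-differential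
`q_j = q j (z) (dz)^j`. The entry is `1` on the subdiagonal, `q j` on the `(j-1)`-th
superdiagonal, and `0` elsewhere. -/
noncomputable def hitchinField (n : ℕ) (q : ℕ → ℂ → ℂ) (z : ℂ) : Matrix (Fin n) (Fin n) ℂ :=
  Matrix.of fun i j =>
    if (i : ℕ) = (j : ℕ) + 1 then 1
    else if (i : ℕ) < (j : ℕ) then q ((j : ℕ) - (i : ℕ) + 1) z
    else 0

/-- The Wirtinger derivative `∂f/∂z = (f_x - i f_y) / 2`. -/
noncomputable def dz (f : ℂ → ℂ) (z : ℂ) : ℂ :=
  (fderiv ℝ f z 1 - I * fderiv ℝ f z I) / 2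

/-- The Wirtinger derivative `∂f/∂z̄ = (f_x + i f_y) / 2`. -/
noncomputable def dzbar (f : ℂ → ℂ) (z : ℂ) : ℂ :=
  (fderiv ℝ f z 1 + I * fderiv ℝ f z I) / 2

/-- Entrywise `∂/∂z` of a matrix valued function. -/
noncomputable def mdz {n : ℕ} (F : ℂ → Matrix (Fin n) (Fin n) ℂ) (z : ℂ) :
    Matrix (Fin n) (Fin n) ℂ :=
  Matrix.of fun i j => dz (fun w => F w i j) z

/-- Entrywise `∂/∂z̄` of a matrix valued function. -/
noncomputable def mdzbar {n : ℕ} (F : ℂ → Matrix (Fin n) (Fin n) ℂ) (z : ℂ) :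
    Matrix (Fin n) (Fin n) ℂ :=
  Matrix.of fun i j => dzbar (fun w => F w i j) z

/-- `H` is (the Gram matrix, in the chosen holomorphic frame, of) a harmonic metric for the Higgs
bundle on `ℂ` whose Higgs field is `θ = A(z) dz`. The Hermitian metric is `h(u,v) = u^* H v`.
Its Chern connection is `d + H⁻¹ (∂H/∂z) dz`, whose curvature is
`∂/∂z̄ (H⁻¹ ∂H/∂z) dz̄ ∧ dz`; the adjoint of the Higgs field is `θ^{*h} = H⁻¹ A^* H dz̄`, and
`[θ, θ^{*h}] = (A H⁻¹A^*H - H⁻¹A^*H A) dz ∧ dz̄`. So `flat` is the equation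
`∇_h ∘ ∇_h + [θ, θ^{*h}] = 0`. -/
structure IsHarmonicMetric {n : ℕ} (A H : ℂ → Matrix (Fin n) (Fin n) ℂ) : Prop where
  /-- the metric is smooth -/
  smooth : ∀ i j, ContDiff ℝ (⊤ : ℕ∞) (fun z => H z i j)
  /-- the metric is a positive definite Hermitian form at every point -/
  posDef : ∀ z, (H z).PosDef
  /-- the curvature equation -/
  flat : ∀ z, mdzbar (fun w => (H w)⁻¹ * mdz H w) z =
    A z * ((H z)⁻¹ * (A z)ᴴ * H z) - ((H z)⁻¹ * (A z)ᴴ * H z) * A z

end Pool.Agent.V11191.HB
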