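import Mathlib

open Complex Filter Topology

namespace Pool.Agent.V11191.HB

/-- Second derivative test at a local maximum. -/
theorem sd_test {f g : ℝ → ℝ} {c : ℝ} (hmax : IsLocalMax f 0)
    (hf : ∀ᶠ t in 𝓝 (0 : ℝ), HasDerivAt f (g t) t) (hg : HasDerivAt g c 0) : c ≤ 0 := by
  by_contra hc
  push Not at hc
  have h1 : deriv f =ᶠ[𝓝 0] g := by
    filter_upwards [hf] with t ht using ht.deriv
  have h2 : deriv (deriv f) 0 = c := by
    rw [h1.deriv_eq]; exact hg.deriv
  have h3 : deriv f 0 = 0 := hmax.deriv_eq_zero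
  have h4 : ContinuousAt f 0 := (hf.self_of_nhds).continuousAt
  have h5 : IsLocalMin f 0 := isLocalMin_of_deriv_deriv_pos (by rw [h2]; exact hc) h3 h4
  have h6 : f =ᶠ[𝓝 0] fun _ => f 0 := by
    filter_upwards [hmax, h5] with t ht1 ht2 using le_antisymm ht1 ht2
  have h7 : deriv f =ᶠ[𝓝 0] deriv (fun _ => f 0) := h6.deriv
  have h8 : deriv (deriv f) 0 = 0 := by
    rw [h7.deriv_eq]
    simp
  rw [h2] at h8
  exact absurd h8 hc.ne'

theorem line_deriv {X : ℂ → ℝ} (hX : Differentiable ℝ X) (z e : ℂ) (t : ℝ) :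
    HasDerivAt (fun s : ℝ => X (z + s * e)) (fderiv ℝ X (z + t * e) e) t := by
  have h1 : HasDerivAt (fun s : ℝ => z + (s : ℂ) * e) e t := by
    have := ((Complex.ofRealCLM.hasDerivAt (x := t)).mul_const e).const_add z
    simpa using this
  exact ((hX (z + t * e)).hasFDerivAt).comp_hasDerivAt t h1

theorem rho_deriv (R : ℝ) (z e : ℂ) (t : ℝ) :
    HasDerivAt (fun s : ℝ => R ^ 2 - Complex.normSq (z + s * e))
      (-(2 * ((z.re + t * e.re) * e.re + (z.im + t * e.im) * e.im))) t := by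
  have h : (fun s : ℝ => R ^ 2 - Complex.normSq (z + s * e)) =
      fun s : ℝ => R ^ 2 - ((z.re + s * e.re) * (z.re + s * e.re) +
        (z.im + s * e.im) * (z.im + s * e.im)) := by
    funext s
    simp [Complex.normSq_apply]
  rw [h]
  have h1 : HasDerivAt (fun s : ℝ => z.re + s * e.re) e.re t := by
    simpa using ((hasDerivAt_id t).mul_const e.re).const_add z.re
  have h2 : HasDerivAt (fun s : ℝ => z.im + s * e.im) e.im t := by
    simpa using ((hasDerivAt_id t).mul_const e.im).const_add z.im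
  have := ((h1.mul h1).add (h2.mul h2)).const_sub (R ^ 2)
  refine this.congr_deriv ?_
  ring

/-- Liouville type theorem of Ahlfors type. -/
theorem liouville {X Y : ℂ → ℝ} (hX : ContDiff ℝ (⊤ : ℕ∞) X) (hY : ContDiff ℝ (⊤ : ℕ∞) Y)
    (hXp : ∀ z, 0 < X z) (hYp : ∀ z, 0 < Y z)
    (h : ∀ z, (1 / 2) * min (Real.sqrt (X z * Y z)) (X z * Y z) ≤
      ((fderiv ℝ (fun w => fderiv ℝ X w 1) z 1 + fderiv ℝ (fun w => fderiv ℝ X w I) z I) * X z
        - ((fderiv ℝ X z 1) ^ 2 + (fderiv ℝ X z I) ^ 2)) / (X z) ^ 2 +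
      ((fderiv ℝ (fun w => fderiv ℝ Y w 1) z 1 + fderiv ℝ (fun w => fderiv ℝ Y w I) z I) * Y z
        - ((fderiv ℝ Y z 1) ^ 2 + (fderiv ℝ Y z I) ^ 2)) / (Y z) ^ 2) : False := by
  -- the key estimate for every radius
  have key : ∀ R : ℝ, 1 ≤ R → X 0 * Y 0 * R ^ 8 ≤ 1024 * R ^ 6 := by
    intro R hR
    have hR0 : 0 < R := by linarith
    set Φ : ℂ → ℝ := fun z => X z * Y z * (R ^ 2 - Complex.normSq z) ^ 4 with hΦ
    have hcont : Continuous Φ :=
      (hX.continuous.mul hY.continuous).mul ((continuous_const.sub Complex.continuous_normSq).pow 4)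
    obtain ⟨z0, hz0, hmax⟩ := (isCompact_closedBall (0 : ℂ) R).exists_isMaxOn
      ⟨0, by simp [hR0.le]⟩ hcont.continuousOn
    have hΦ0 : Φ 0 = X 0 * Y 0 * R ^ 8 := by simp [hΦ]; ring_nf; simp
    have hΦ0pos : 0 < Φ 0 := by rw [hΦ0]; have := hXp 0; have := hYp 0; positivity
    have hle : Φ 0 ≤ Φ z0 := hmax (by simp [hR0.le])
    have hn0 : Complex.normSq z0 ≤ R ^ 2 := by
      rw [Complex.normSq_eq_norm_sq]
      have : ‖z0‖ ≤ R := by simpa using hz0
      exact pow_le_pow_left₀ (norm_nonneg _) this 2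
    have hρ : 0 < R ^ 2 - Complex.normSq z0 := by
      rcases eq_or_lt_of_le hn0 with h0 | h0
      · exfalso
        have : Φ z0 = 0 := by simp [hΦ, h0]
        linarith
      · linarith
    have hnorm : ‖z0‖ < R := by
      have : ‖z0‖ ^ 2 < R ^ 2 := by rw [← Complex.normSq_eq_norm_sq]; linarith
      exact lt_of_pow_lt_pow_left₀ 2 hR0.le this
    -- second derivative test in the direction e
    have dir : ∀ e : ℂ,
        (fderiv ℝ (fun w => fderiv ℝ X w e) z0 e * X z0 - (fderiv ℝ X z0 e) ^ 2) / (X z0) ^ 2 +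
        (fderiv ℝ (fun w => fderiv ℝ Y w e) z0 e * Y z0 - (fderiv ℝ Y z0 e) ^ 2) / (Y z0) ^ 2 +
        4 * ((-(2 * (e.re * e.re + e.im * e.im)) * (R ^ 2 - Complex.normSq z0) -
          (2 * (z0.re * e.re + z0.im * e.im)) ^ 2) / (R ^ 2 - Complex.normSq z0) ^ 2) ≤ 0 := by
      intro e
      have hXd : Differentiable ℝ X := hX.differentiable (by simp)
      have hYd : Differentiable ℝ Y := hY.differentiable (by simp)
      have hXd1 : Differentiable ℝ (fun w => fderiv ℝ X w e) :=
        ((hX.fderiv_right (m := (⊤ : ℕ∞)) (by simp)).clm_apply contDiff_const).differentiable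
          (by simp)
      have hYd1 : Differentiable ℝ (fun w => fderiv ℝ Y w e) :=
        ((hY.fderiv_right (m := (⊤ : ℕ∞)) (by simp)).clm_apply contDiff_const).differentiable
          (by simp)
      have hev : ∀ᶠ t : ℝ in 𝓝 (0 : ℝ), z0 + (t : ℂ) * e ∈ Metric.ball (0 : ℂ) R := by
        have hc : Continuous (fun t : ℝ => z0 + (t : ℂ) * e) := by fun_prop
        have : Metric.ball (0 : ℂ) R ∈ 𝓝 (z0 + ((0 : ℝ) : ℂ) * e) := by
          apply Metric.isOpen_ball.mem_nhds
          simpa using hnorm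
        exact hc.continuousAt.eventually this
      have hpos : ∀ z ∈ Metric.ball (0 : ℂ) R, 0 < R ^ 2 - Complex.normSq z := by
        intro z hz
        rw [Complex.normSq_eq_norm_sq]
        have : ‖z‖ < R := by simpa using hz
        have := pow_lt_pow_left₀ this (norm_nonneg _) two_ne_zero
        linarith
      set f : ℝ → ℝ := fun t => Real.log (X (z0 + t * e)) + Real.log (Y (z0 + t * e)) +
        4 * Real.log (R ^ 2 - Complex.normSq (z0 + t * e)) with hf
      set g : ℝ → ℝ := fun t => fderiv ℝ X (z0 + t * e) e / X (z0 + t * e) +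
        fderiv ℝ Y (z0 + t * e) e / Y (z0 + t * e) +
        4 * ((-(2 * ((z0.re + t * e.re) * e.re + (z0.im + t * e.im) * e.im))) /
          (R ^ 2 - Complex.normSq (z0 + t * e))) with hg
      have hfmax : IsLocalMax f 0 := by
        filter_upwards [hev] with t ht
        have hp := hpos _ ht
        have h1 : Φ (z0 + t * e) ≤ Φ z0 := hmax (Metric.ball_subset_closedBall ht)
        have hlog : ∀ z, 0 < R ^ 2 - Complex.normSq z → Real.log (Φ z) =
            Real.log (X z) + Real.log (Y z) + 4 * Real.log (R ^ 2 - Complex.normSq z) := by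
          intro z hz
          rw [hΦ]
          simp only
          rw [Real.log_mul (mul_pos (hXp z) (hYp z)).ne' (pow_pos hz 4).ne',
            Real.log_mul (hXp z).ne' (hYp z).ne', Real.log_pow]
          norm_num
        have h2 : Real.log (Φ (z0 + t * e)) ≤ Real.log (Φ z0) := by
          apply Real.log_le_log _ h1
          exact mul_pos (mul_pos (hXp _) (hYp _)) (pow_pos hp 4)
        rw [hlog _ hp, hlog _ hρ] at h2
        simpa [hf] using h2
      have hfd : ∀ᶠ t in 𝓝 (0 : ℝ), HasDerivAt f (g t) t := by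
        filter_upwards [hev] with t ht
        have hp := hpos _ ht
        exact (((line_deriv hXd z0 e t).log (hXp _).ne').add
          ((line_deriv hYd z0 e t).log (hYp _).ne')).add
          (((rho_deriv R z0 e t).log hp.ne').const_mul 4)
      have hp0 : 0 < R ^ 2 - Complex.normSq (z0 + ((0 : ℝ) : ℂ) * e) := by simpa using hρ
      have hlin : HasDerivAt (fun t : ℝ => -(2 * ((z0.re + t * e.re) * e.re +
          (z0.im + t * e.im) * e.im))) (-(2 * (e.re * e.re + e.im * e.im))) 0 := by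
        have h1 : HasDerivAt (fun s : ℝ => z0.re + s * e.re) e.re 0 := by
          simpa using ((hasDerivAt_id (0 : ℝ)).mul_const e.re).const_add z0.re
        have h2 : HasDerivAt (fun s : ℝ => z0.im + s * e.im) e.im 0 := by
          simpa using ((hasDerivAt_id (0 : ℝ)).mul_const e.im).const_add z0.im
        exact (((h1.mul_const e.re).add (h2.mul_const e.im)).const_mul 2).neg
      have hgd := (((line_deriv hXd1 z0 e 0).div (line_deriv hXd z0 e 0) (hXp _).ne').add
          ((line_deriv hYd1 z0 e 0).div (line_deriv hYd z0 e 0) (hYp _).ne')).add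
          ((hlin.div (rho_deriv R z0 e 0) hp0.ne').const_mul 4)
      have := sd_test hfmax hfd hgd
      refine le_trans (le_of_eq ?_) this
      simp only [Complex.ofReal_zero, zero_mul, add_zero]
      ring
    have h1 := dir 1
    have h2 := dir I
    have h3 := h z0
    set ρ := R ^ 2 - Complex.normSq z0 with hρdef
    simp only [Complex.one_re, Complex.one_im, Complex.I_re, Complex.I_im] at h1 h2
    have hns : Complex.normSq z0 = z0.re ^ 2 + z0.im ^ 2 := by
      rw [Complex.normSq_apply]; ring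
    have h4 : (1 / 2) * min (Real.sqrt (X z0 * Y z0)) (X z0 * Y z0) ≤ 16 * R ^ 2 / ρ ^ 2 := by
      have e1 : 16 * R ^ 2 / ρ ^ 2 = -(4 * ((-(2 * (1 * 1 + 0 * 0)) * ρ -
          (2 * (z0.re * 1 + z0.im * 0)) ^ 2) / ρ ^ 2)) - (4 * ((-(2 * (0 * 0 + 1 * 1)) * ρ -
          (2 * (z0.re * 0 + z0.im * 1)) ^ 2) / ρ ^ 2)) := by
        field_simp
        rw [hρdef, hns]
        ring
      rw [e1]
      refine le_trans h3 ?_
      have e2 : ∀ a b c d x : ℝ, ((a + b) * x - (c ^ 2 + d ^ 2)) / x ^ 2 =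
          (a * x - c ^ 2) / x ^ 2 + (b * x - d ^ 2) / x ^ 2 := by
        intro a b c d x
        ring
      rw [e2, e2]
      linarith
    have hρR : ρ ≤ R ^ 2 := by
      have := Complex.normSq_nonneg z0
      linarith
    have hXY : 0 < X z0 * Y z0 := mul_pos (hXp _) (hYp _)
    have h5 : Φ z0 ≤ 1024 * R ^ 6 := by
      have hR2 : (1 : ℝ) ≤ R ^ 2 := by nlinarith
      rcases le_total (Real.sqrt (X z0 * Y z0)) (X z0 * Y z0) with hc | hc
      · rw [min_eq_left hc] at h4
        have h6 : Real.sqrt (X z0 * Y z0) * ρ ^ 2 ≤ 32 * R ^ 2 := by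
          rw [le_div_iff₀ (by positivity)] at h4
          linarith
        have h7 : Φ z0 = (Real.sqrt (X z0 * Y z0) * ρ ^ 2) ^ 2 := by
          rw [mul_pow, Real.sq_sqrt hXY.le]
          simp only [hΦ, ← hρdef]
          ring
        rw [h7]
        calc (Real.sqrt (X z0 * Y z0) * ρ ^ 2) ^ 2 ≤ (32 * R ^ 2) ^ 2 :=
              pow_le_pow_left₀ (by positivity) h6 2
          _ = 1024 * (R ^ 4 * 1) := by ring
          _ ≤ 1024 * (R ^ 4 * R ^ 2) := by gcongr
          _ = 1024 * R ^ 6 := by ring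
      · rw [min_eq_right hc] at h4
        have h6 : X z0 * Y z0 * ρ ^ 2 ≤ 32 * R ^ 2 := by
          rw [le_div_iff₀ (by positivity)] at h4
          linarith
        have h7 : Φ z0 = (X z0 * Y z0 * ρ ^ 2) * ρ ^ 2 := by
          simp only [hΦ, ← hρdef]
          ring
        rw [h7]
        calc (X z0 * Y z0 * ρ ^ 2) * ρ ^ 2 ≤ (32 * R ^ 2) * (R ^ 2) ^ 2 := by gcongr
          _ ≤ 1024 * R ^ 6 := by nlinarith [pow_pos hR0 6]
    calc X 0 * Y 0 * R ^ 8 = Φ 0 := hΦ0.symm
      _ ≤ Φ z0 := hle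
      _ ≤ 1024 * R ^ 6 := h5
  -- let R → ∞
  have hpos : 0 < X 0 * Y 0 := mul_pos (hXp 0) (hYp 0)
  set R : ℝ := 1 + 1025 / (X 0 * Y 0) with hR
  have hR1 : 1 ≤ R := by
    have : 0 ≤ 1025 / (X 0 * Y 0) := by positivity
    linarith
  have h1 := key R hR1
  have hR0 : 0 < R := by linarith
  have h2 : X 0 * Y 0 * R ^ 2 ≤ 1024 := by
    have : (X 0 * Y 0 * R ^ 2) * R ^ 6 ≤ 1024 * R ^ 6 := by
      calc (X 0 * Y 0 * R ^ 2) * R ^ 6 = X 0 * Y 0 * R ^ 8 := by ring
        _ ≤ _ := h1
    exact le_of_mul_le_mul_right this (by positivity)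
  have h3 : X 0 * Y 0 * R ≤ X 0 * Y 0 * R ^ 2 := by
    have : R ≤ R ^ 2 := by nlinarith
    gcongr
  have h4 : X 0 * Y 0 * R = X 0 * Y 0 + 1025 := by
    rw [hR, mul_add, mul_one, mul_div_cancel₀ _ hpos.ne']
  linarith

end Pool.Agent.V11191.HB
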