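import Mathlib
import Pool.Agent.V11191.HBDefs
import Pool.Agent.V11191.HBLiouville

/-!
Higgs bundles on the complex line, in a global holomorphic frame.
-/

open Matrix Complex
open scoped ComplexOrder

namespace Pool.Agent.V11191.HB

variable {n : ℕ}

/-- Entrywise derivative in the direction `e`. -/
noncomputable def md (e : ℂ) (F : ℂ → Matrix (Fin n) (Fin n) ℂ) (z : ℂ) :
    Matrix (Fin n) (Fin n) ℂ :=
  Matrix.of fun i j => fderiv ℝ (fun w => F w i j) z e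

/-- Entrywise smooth. -/
def MSmooth (F : ℂ → Matrix (Fin n) (Fin n) ℂ) : Prop :=
  ∀ i j, ContDiff ℝ (⊤ : ℕ∞) (fun z => F z i j)

theorem MSmooth.diff {F : ℂ → Matrix (Fin n) (Fin n) ℂ} (h : MSmooth F) (i j : Fin n) :
    Differentiable ℝ (fun z => F z i j) :=
  (h i j).differentiable (by simp)

theorem mdz_eq (F : ℂ → Matrix (Fin n) (Fin n) ℂ) (z : ℂ) :
    mdz F z = (1 / 2 : ℂ) • (md 1 F z - I • md I F z) := by
  ext i j
  simp [mdz, dz, md]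
  ring

theorem mdzbar_eq (F : ℂ → Matrix (Fin n) (Fin n) ℂ) (z : ℂ) :
    mdzbar F z = (1 / 2 : ℂ) • (md 1 F z + I • md I F z) := by
  ext i j
  simp [mdzbar, dzbar, md]
  ring

theorem md_mul (e : ℂ) {F G : ℂ → Matrix (Fin n) (Fin n) ℂ} (hF : MSmooth F) (hG : MSmooth G)
    (z : ℂ) : md e (fun w => F w * G w) z = md e F z * G z + F z * md e G z := by
  ext i j
  simp only [md, Matrix.of_apply, Matrix.add_apply, Matrix.mul_apply]
  rw [fderiv_fun_sum]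
  · rw [_root_.sum_apply, ← Finset.sum_add_distrib]
    refine Finset.sum_congr rfl fun k _ => ?_
    rw [fderiv_fun_mul ((hF.diff i k) z) ((hG.diff k j) z)]
    simp
    ring
  · intro k _
    exact ((hF.diff i k) z).mul ((hG.diff k j) z)

theorem MSmooth.mul {F G : ℂ → Matrix (Fin n) (Fin n) ℂ} (hF : MSmooth F) (hG : MSmooth G) :
    MSmooth (fun w => F w * G w) := by
  intro i j
  simp only [Matrix.mul_apply]
  exact ContDiff.sum fun k _ => (hF i k).mul (hG k j)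

theorem MSmooth.md {F : ℂ → Matrix (Fin n) (Fin n) ℂ} (hF : MSmooth F) (e : ℂ) :
    MSmooth (md e F) := by
  intro i j
  have h1 : ContDiff ℝ (⊤ : ℕ∞) (fderiv ℝ (fun z => F z i j)) :=
    (hF i j).fderiv_right (by simp)
  exact h1.clm_apply contDiff_const

theorem MSmooth.det {F : ℂ → Matrix (Fin n) (Fin n) ℂ} (hF : MSmooth F) :
    ContDiff ℝ (⊤ : ℕ∞) (fun z => (F z).det) := by
  simp only [Matrix.det_apply]
  refine ContDiff.sum fun σ _ => ?_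
  simp only [Units.smul_def, zsmul_eq_mul]
  exact contDiff_const.mul (contDiff_prod fun k _ => hF _ _)

theorem MSmooth.inv {F : ℂ → Matrix (Fin n) (Fin n) ℂ} (hF : MSmooth F)
    (h0 : ∀ z, (F z).det ≠ 0) : MSmooth (fun z => (F z)⁻¹) := by
  intro i j
  simp only [Matrix.inv_def, Matrix.smul_apply, Matrix.adjugate_apply, Ring.inverse_eq_inv',
    smul_eq_mul]
  refine (hF.det.inv h0).mul ?_
  refine MSmooth.det (F := fun z => (F z).updateRow j (Pi.single i 1)) ?_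
  intro k l
  by_cases hk : k = j
  · subst hk
    simp only [Matrix.updateRow_self]
    exact contDiff_const
  · simp only [Matrix.updateRow_ne hk]
    exact hF k l

/-- Cauchy–Schwarz for a positive semidefinite Hermitian matrix. -/
theorem cs {H : Matrix (Fin n) (Fin n) ℂ} (hH : H.PosDef) (u v : Fin n → ℂ) :
    Complex.normSq (star u ⬝ᵥ H *ᵥ v) ≤
      (star u ⬝ᵥ H *ᵥ u).re * (star v ⬝ᵥ H *ᵥ v).re := by
  have key : ∀ w : Fin n → ℂ, 0 ≤ (star w ⬝ᵥ H *ᵥ w).re := fun w =>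
    (Complex.le_def.1 (hH.posSemidef.dotProduct_mulVec_nonneg w)).1
  have him : ∀ w : Fin n → ℂ, (star w ⬝ᵥ H *ᵥ w).im = 0 := fun w =>
    ((Complex.le_def.1 (hH.posSemidef.dotProduct_mulVec_nonneg w)).2).symm
  set a := (star u ⬝ᵥ H *ᵥ u) with ha
  set b := (star u ⬝ᵥ H *ᵥ v) with hb
  set c := (star v ⬝ᵥ H *ᵥ v) with hc
  have hvu : (star v ⬝ᵥ H *ᵥ u) = star b := by
    rw [hb, ← Matrix.star_dotProduct_star, star_star, Matrix.star_mulVec, hH.isHermitian.eq,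
      ← Matrix.dotProduct_mulVec, dotProduct_comm]
  by_cases hv : v = 0
  · simp [hb, hc, hv]
  · have hcpos : 0 < c.re := (Complex.lt_def.1 (hH.dotProduct_mulVec_pos hv)).1
    have h1 := key (c • u - (star b) • v)
    have h2 : star (c • u - (star b) • v) ⬝ᵥ H *ᵥ (c • u - (star b) • v) =
        c * (star c * a) - c * (b * star b) := by
      simp only [star_sub, star_smul, Matrix.mulVec_sub, Matrix.mulVec_smul, sub_dotProduct,
        dotProduct_sub, smul_dotProduct, dotProduct_smul, smul_eq_mul, star_star]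
      rw [← ha, ← hb, ← hc, hvu]
      have hcr : star c = c := by
        apply Complex.ext <;> simp [him v, hc]
      rw [hcr]
      ring
    rw [h2] at h1
    have hcim : c.im = 0 := him v
    have haim : a.im = 0 := him u
    have h3 : (c * (star c * a) - c * (b * star b)).re =
        c.re * (c.re * a.re - Complex.normSq b) := by
      simp [Complex.mul_re, Complex.mul_im, hcim, haim, Complex.normSq_apply]
      ring
    rw [h3] at h1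
    have h4 : 0 ≤ c.re * a.re - Complex.normSq b := nonneg_of_mul_nonneg_right h1 hcpos
    linarith

theorem form_re_nonneg {H : Matrix (Fin n) (Fin n) ℂ} (hH : H.PosDef) (w : Fin n → ℂ) :
    0 ≤ (star w ⬝ᵥ H *ᵥ w).re :=
  (Complex.le_def.1 (hH.posSemidef.dotProduct_mulVec_nonneg w)).1

theorem form_im {H : Matrix (Fin n) (Fin n) ℂ} (hH : H.PosDef) (w : Fin n → ℂ) :
    (star w ⬝ᵥ H *ᵥ w).im = 0 :=
  ((Complex.le_def.1 (hH.posSemidef.dotProduct_mulVec_nonneg w)).2).symm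

/-- The pointwise inequality behind the Liouville argument. -/
theorem alg_ineq {H B : Matrix (Fin n) (Fin n) ℂ} (hH : H.PosDef) {x y : Fin n → ℂ}
    (hN : (3 : ℂ) • B - B * B = vecMulVec x y) (hx : x ≠ 0) (hy : y ≠ 0)
    {X Y α β : ℝ}
    (hX : X = (star x ⬝ᵥ H *ᵥ x).re)
    (hY : Y = (y ⬝ᵥ H⁻¹ *ᵥ star y).re)
    (hα : α = (star x ⬝ᵥ (H * B * H⁻¹ * Bᴴ * H) *ᵥ x).re)
    (hβ : β = (y ⬝ᵥ (H⁻¹ * Bᴴ * H * B * H⁻¹) *ᵥ star y).re) :
    0 < X ∧ 0 < Y ∧ 0 ≤ α ∧ 0 ≤ β ∧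
    min (Real.sqrt (X * Y)) (X * Y) / 8 ≤ α / X + β / Y := by
  have hdet : IsUnit H.det := (Matrix.isUnit_iff_isUnit_det H).1 hH.isUnit
  have hHH : Hᴴ = H := hH.isHermitian.eq
  have hGH : (H⁻¹)ᴴ = H⁻¹ := hH.inv.isHermitian.eq
  have h1 : H * H⁻¹ = 1 := Matrix.mul_nonsing_inv H hdet
  have h2 : H⁻¹ * H = 1 := Matrix.nonsing_inv_mul H hdet
  set m : Fin n → ℂ := H⁻¹ *ᵥ star y with hm
  set r : Fin n → ℂ := B *ᵥ m with hr
  set p : Fin n → ℂ := (H⁻¹ * Bᴴ * H) *ᵥ x with hp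
  have hXp : 0 < X := hX ▸ (Complex.lt_def.1 (hH.dotProduct_mulVec_pos hx)).1
  have hYp : 0 < Y := by
    rw [hY]
    have hsy : star y ≠ 0 := by simpa using hy
    have := (Complex.lt_def.1 (hH.inv.dotProduct_mulVec_pos hsy)).1
    simpa using this
  have pc : (H⁻¹ * Bᴴ * H)ᴴ = H * (B * H⁻¹) := by
    simp only [Matrix.conjTranspose_mul, Matrix.conjTranspose_conjTranspose, hHH, hGH]
  have e1 : star p ⬝ᵥ H *ᵥ p = star x ⬝ᵥ (H * B * H⁻¹ * Bᴴ * H) *ᵥ x := by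
    have hmat : (H⁻¹ * Bᴴ * H)ᴴ * H * (H⁻¹ * Bᴴ * H) = H * B * H⁻¹ * Bᴴ * H := by
      rw [pc]
      calc H * (B * H⁻¹) * H * (H⁻¹ * Bᴴ * H) = H * B * (H⁻¹ * H) * H⁻¹ * Bᴴ * H := by
            simp only [Matrix.mul_assoc]
        _ = H * B * H⁻¹ * Bᴴ * H := by rw [h2, Matrix.mul_one]
    rw [hp, Matrix.star_mulVec, ← Matrix.dotProduct_mulVec, Matrix.mulVec_mulVec,
      Matrix.mulVec_mulVec, hmat]
  have e2 : star r ⬝ᵥ H *ᵥ r = y ⬝ᵥ (H⁻¹ * Bᴴ * H * B * H⁻¹) *ᵥ star y := by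
    have hmat : (B * H⁻¹)ᴴ * H * (B * H⁻¹) = H⁻¹ * Bᴴ * H * B * H⁻¹ := by
      rw [Matrix.conjTranspose_mul, hGH]
      simp only [Matrix.mul_assoc]
    rw [hr, hm, Matrix.mulVec_mulVec, Matrix.star_mulVec, star_star, ← Matrix.dotProduct_mulVec,
      Matrix.mulVec_mulVec, Matrix.mulVec_mulVec, hmat]
  have e3 : star m ⬝ᵥ H *ᵥ m = y ⬝ᵥ H⁻¹ *ᵥ star y := by
    have hmat : (H⁻¹)ᴴ * H * H⁻¹ = H⁻¹ := by rw [Matrix.mul_assoc, h1, Matrix.mul_one, hGH]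
    rw [hm, Matrix.star_mulVec, star_star, ← Matrix.dotProduct_mulVec,
      Matrix.mulVec_mulVec, Matrix.mulVec_mulVec, hmat]
  have hmat4 : (H⁻¹ * Bᴴ * H)ᴴ * H = H * B := by
    rw [pc]
    calc H * (B * H⁻¹) * H = H * B * (H⁻¹ * H) := by simp only [Matrix.mul_assoc]
      _ = H * B := by rw [h2, Matrix.mul_one]
  have e45 : ∀ w : Fin n → ℂ, star x ⬝ᵥ H *ᵥ (B *ᵥ w) = star p ⬝ᵥ H *ᵥ w := by
    intro w
    rw [hp, Matrix.star_mulVec, ← Matrix.dotProduct_mulVec, Matrix.mulVec_mulVec,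
      Matrix.mulVec_mulVec, hmat4]
  have e4 : star x ⬝ᵥ H *ᵥ r = star p ⬝ᵥ H *ᵥ m := e45 m
  have e5 : star x ⬝ᵥ H *ᵥ (B *ᵥ r) = star p ⬝ᵥ H *ᵥ r := e45 r
  have e6 : (3 : ℂ) • r - B *ᵥ r = (y ⬝ᵥ m) • x := by
    have h := congrArg (fun M => M *ᵥ m) hN
    simp only [Matrix.sub_mulVec, Matrix.smul_mulVec, ← Matrix.mulVec_mulVec] at h
    rw [hr, h]
    ext i
    simp [Matrix.vecMulVec, Matrix.mulVec, dotProduct, Finset.mul_sum, mul_assoc, mul_comm]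
  have hYc : (y ⬝ᵥ m) = (Y : ℂ) := by
    have hsy := form_im hH.inv (star y)
    rw [star_star, ← hm] at hsy
    apply Complex.ext
    · rw [hY]; simp
    · simpa using hsy
  have hXc : (star x ⬝ᵥ H *ᵥ x) = (X : ℂ) := by
    apply Complex.ext
    · simp [hX]
    · simpa using form_im hH x
  have e7 : (3 : ℂ) * (star x ⬝ᵥ H *ᵥ r) - star p ⬝ᵥ H *ᵥ r = (X * Y : ℝ) := by
    have h := congrArg (fun w => star x ⬝ᵥ H *ᵥ w) e6
    simp only [Matrix.mulVec_sub, Matrix.mulVec_smul, dotProduct_sub, dotProduct_smul,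
      smul_eq_mul] at h
    rw [e5, hYc, hXc] at h
    rw [h]
    push_cast
    ring
  have c1 := cs hH x r
  have c2 := cs hH p m
  have c3 := cs hH p r
  rw [e1, ← hα] at c2 c3
  rw [← hX, e2, ← hβ] at c1
  rw [e2, ← hβ] at c3
  rw [e3, ← hY, ← e4] at c2
  set A1 := (star x ⬝ᵥ H *ᵥ r) with hA1
  set A2 := (star p ⬝ᵥ H *ᵥ r) with hA2
  have hα0 : 0 ≤ α := by rw [hα, ← e1]; exact form_re_nonneg hH p
  have hβ0 : 0 ≤ β := by rw [hβ, ← e2]; exact form_re_nonneg hH r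
  have habs : X * Y ≤ 3 * ‖A1‖ + ‖A2‖ := by
    have h := congrArg (fun t => ‖t‖) e7
    simp only [Complex.norm_real, Real.norm_eq_abs] at h
    rw [abs_of_pos (mul_pos hXp hYp)] at h
    rw [← h]
    calc ‖3 * A1 - A2‖ ≤ ‖3 * A1‖ + ‖A2‖ := norm_sub_le _ _
      _ = 3 * ‖A1‖ + ‖A2‖ := by simp
  rw [Complex.normSq_eq_norm_sq] at c1 c2 c3
  -- normalise
  set a2 := α / X with ha2
  set b2 := β / Y with hb2
  have ha20 : 0 ≤ a2 := div_nonneg hα0 hXp.le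
  have hb20 : 0 ≤ b2 := div_nonneg hβ0 hYp.le
  have hαe : α = a2 * X := by rw [ha2]; field_simp
  have hβe : β = b2 * Y := by rw [hb2]; field_simp
  set N := Real.sqrt (X * Y) with hNdef
  have hNsq : N ^ 2 = X * Y := Real.sq_sqrt (mul_pos hXp hYp).le
  have hNpos : 0 < N := Real.sqrt_pos.2 (mul_pos hXp hYp)
  set s := Real.sqrt ((a2 + b2) / 2) with hs
  have hs2 : s ^ 2 = (a2 + b2) / 2 := Real.sq_sqrt (by positivity)
  have hs0 : 0 ≤ s := Real.sqrt_nonneg _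
  have k1 : ‖A1‖ ≤ N * s := by
    refine le_of_pow_le_pow_left₀ two_ne_zero (by positivity) ?_
    rw [mul_pow, hNsq, hs2]
    have c1' : ‖A1‖ ^ 2 ≤ X * Y * b2 := by rw [hβe] at c1; linarith
    have c2' : ‖A1‖ ^ 2 ≤ X * Y * a2 := by rw [hαe] at c2; linarith
    nlinarith
  have k2 : ‖A2‖ ≤ N * s ^ 2 := by
    refine le_of_pow_le_pow_left₀ two_ne_zero (by positivity) ?_
    have c3' : ‖A2‖ ^ 2 ≤ X * Y * (a2 * b2) := by
      rw [hαe, hβe] at c3; linarith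
    have : a2 * b2 ≤ (s ^ 2) ^ 2 := by
      rw [hs2]; nlinarith [sq_nonneg (a2 - b2)]
    calc ‖A2‖ ^ 2 ≤ X * Y * (a2 * b2) := c3'
      _ ≤ X * Y * (s ^ 2) ^ 2 := by gcongr
      _ = (N * s ^ 2) ^ 2 := by rw [mul_pow, hNsq]
  have k3 : N ≤ 3 * s + s ^ 2 := by
    have : N * N ≤ N * (3 * s + s ^ 2) := by
      calc N * N = X * Y := by rw [← hNsq]; ring
        _ ≤ 3 * (N * s) + N * s ^ 2 := by linarith
        _ = N * (3 * s + s ^ 2) := by ring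
    exact le_of_mul_le_mul_left this hNpos
  refine ⟨hXp, hYp, hα0, hβ0, ?_⟩
  have hF : a2 + b2 = 2 * s ^ 2 := by rw [hs2]; ring
  rw [hF]
  by_cases h1s : s ≤ 1
  · have : N ≤ 4 * s := by nlinarith
    have h5 : X * Y ≤ 16 * s ^ 2 := by rw [← hNsq]; nlinarith
    have := min_le_right N (X * Y)
    linarith
  · push Not at h1s
    have : N ≤ 4 * s ^ 2 := by nlinarith
    have h5 := min_le_left N (X * Y)
    have h6 : 0 ≤ s ^ 2 := sq_nonneg s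
    linarith

theorem mdzbar_mul {F G : ℂ → Matrix (Fin n) (Fin n) ℂ} (hF : MSmooth F) (hG : MSmooth G)
    (z : ℂ) : mdzbar (fun w => F w * G w) z = mdzbar F z * G z + F z * mdzbar G z := by
  rw [mdzbar_eq, mdzbar_eq, mdzbar_eq, md_mul 1 hF hG, md_mul I hF hG]
  simp only [Matrix.smul_mul, Matrix.mul_smul, Matrix.add_mul, Matrix.mul_add, smul_add]
  abel

theorem mdz_mul {F G : ℂ → Matrix (Fin n) (Fin n) ℂ} (hF : MSmooth F) (hG : MSmooth G)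
    (z : ℂ) : mdz (fun w => F w * G w) z = mdz F z * G z + F z * mdz G z := by
  rw [mdz_eq, mdz_eq, mdz_eq, md_mul 1 hF hG, md_mul I hF hG]
  simp only [Matrix.smul_mul, Matrix.mul_smul, Matrix.sub_mul, Matrix.mul_sub, smul_add,
    smul_sub]
  abel

theorem MSmooth.mdz {F : ℂ → Matrix (Fin n) (Fin n) ℂ} (hF : MSmooth F) :
    MSmooth (mdz F) := by
  intro i j
  have h : (fun z => HB.mdz F z i j) =
      fun z => (1 / 2 : ℂ) * (HB.md 1 F z i j - I * HB.md I F z i j) := by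
    funext z
    rw [mdz_eq]
    simp
  rw [h]
  exact contDiff_const.mul ((hF.md 1 i j).sub (contDiff_const.mul (hF.md I i j)))

theorem md_conjTranspose (e : ℂ) {F : ℂ → Matrix (Fin n) (Fin n) ℂ} (z : ℂ) :
    md e (fun w => (F w)ᴴ) z = (md e F z)ᴴ := by
  ext i j
  simp only [md, Matrix.of_apply, Matrix.conjTranspose_apply]
  have := fderiv_star (𝕜 := ℝ) (f := fun w => F w j i) (x := z)
  rw [this]
  simp

theorem md_transpose (e : ℂ) {F : ℂ → Matrix (Fin n) (Fin n) ℂ} (z : ℂ) :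
    md e (fun w => (F w)ᵀ) z = (md e F z)ᵀ := rfl

theorem mdz_transpose {F : ℂ → Matrix (Fin n) (Fin n) ℂ} (z : ℂ) :
    mdz (fun w => (F w)ᵀ) z = (mdz F z)ᵀ := rfl

theorem mdzbar_transpose {F : ℂ → Matrix (Fin n) (Fin n) ℂ} (z : ℂ) :
    mdzbar (fun w => (F w)ᵀ) z = (mdzbar F z)ᵀ := rfl

theorem md_herm (e : ℂ) {F : ℂ → Matrix (Fin n) (Fin n) ℂ} (hF : ∀ z, (F z)ᴴ = F z) (z : ℂ) :
    (md e F z)ᴴ = md e F z := by
  rw [← md_conjTranspose]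
  congr 1
  funext w
  exact hF w

theorem mdz_herm {F : ℂ → Matrix (Fin n) (Fin n) ℂ} (hF : ∀ z, (F z)ᴴ = F z) (z : ℂ) :
    (mdz F z)ᴴ = mdzbar F z := by
  rw [mdz_eq, mdzbar_eq]
  simp only [Matrix.conjTranspose_smul, Matrix.conjTranspose_sub, md_herm 1 hF z,
    md_herm I hF z]
  simp

/-- the form `x ↦ x^* M x` is real when `M` is Hermitian -/
theorem form_im' {M : Matrix (Fin n) (Fin n) ℂ} (hM : Mᴴ = M) (x : Fin n → ℂ) :
    (star x ⬝ᵥ M *ᵥ x).im = 0 := by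
  have h : star (star x ⬝ᵥ M *ᵥ x) = star x ⬝ᵥ M *ᵥ x := by
    rw [← Matrix.star_dotProduct_star, star_star, Matrix.star_mulVec, hM,
      ← Matrix.dotProduct_mulVec]
  have := congrArg Complex.im h
  simp at this
  linarith

/-- derivative of the quadratic form -/
theorem hasFDerivAt_form {F : ℂ → Matrix (Fin n) (Fin n) ℂ} (hF : MSmooth F) (x : Fin n → ℂ) :
    ContDiff ℝ (⊤ : ℕ∞) (fun z => (star x ⬝ᵥ F z *ᵥ x).re) ∧
    ∀ z e, fderiv ℝ (fun z => (star x ⬝ᵥ F z *ᵥ x).re) z e = (star x ⬝ᵥ md e F z *ᵥ x).re := by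
  have hc : ContDiff ℝ (⊤ : ℕ∞) (fun z => (star x ⬝ᵥ F z *ᵥ x)) := by
    simp only [dotProduct, Matrix.mulVec]
    exact ContDiff.sum fun i _ => contDiff_const.mul
      (ContDiff.sum fun j _ => (hF i j).mul contDiff_const)
  have hre : ∀ z e, fderiv ℝ (fun z => (star x ⬝ᵥ F z *ᵥ x)) z e =
      (star x ⬝ᵥ md e F z *ᵥ x) := by
    intro z e
    simp only [dotProduct, Matrix.mulVec]
    rw [fderiv_fun_sum]
    · rw [_root_.sum_apply]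
      refine Finset.sum_congr rfl fun i _ => ?_
      rw [fderiv_const_mul, fderiv_fun_sum]
      · simp only [_root_.smul_apply, _root_.sum_apply, smul_eq_mul]
        congr 1
        refine Finset.sum_congr rfl fun j _ => ?_
        rw [fderiv_mul_const ((hF.diff i j) z)]
        simp [md, mul_comm]
      · intro j _
        exact ((hF.diff i j) z).mul_const _
      · exact DifferentiableAt.fun_sum fun j _ => ((hF.diff i j) z).mul_const _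
    · intro i _
      exact (DifferentiableAt.fun_sum fun j _ => ((hF.diff i j) z).mul_const _).const_mul _
  refine ⟨Complex.reCLM.contDiff.comp hc, fun z e => ?_⟩
  have h1 : HasFDerivAt (fun z => (star x ⬝ᵥ F z *ᵥ x))
      (fderiv ℝ (fun z => (star x ⬝ᵥ F z *ᵥ x)) z) z :=
    ((hc.differentiable (by simp)) z).hasFDerivAt
  have h2 := (Complex.reCLM.hasFDerivAt (x := (star x ⬝ᵥ F z *ᵥ x))).comp z h1
  have h3 := h2.fderiv
  have h4 : fderiv ℝ (fun z => (star x ⬝ᵥ F z *ᵥ x).re) z =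
      Complex.reCLM.comp (fderiv ℝ (fun z => (star x ⬝ᵥ F z *ᵥ x)) z) := h3
  rw [h4, ContinuousLinearMap.comp_apply, hre]
  rfl

theorem md_mdz (e : ℂ) {F : ℂ → Matrix (Fin n) (Fin n) ℂ} (hF : MSmooth F) (z : ℂ) :
    md e (mdz F) z = (1 / 2 : ℂ) • (md e (md 1 F) z - I • md e (md I F) z) := by
  ext i j
  have h : (fun w => mdz F w i j) =
      fun w => (1 / 2 : ℂ) * (md 1 F w i j - I * md I F w i j) := by
    funext w
    rw [mdz_eq]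
    simp
  have d1 : DifferentiableAt ℝ (fun w => md 1 F w i j) z := (hF.md 1).diff i j z
  have d2 : DifferentiableAt ℝ (fun w => md I F w i j) z := (hF.md I).diff i j z
  have : md e (mdz F) z i j = fderiv ℝ (fun w => mdz F w i j) z e := rfl
  rw [this, h, fderiv_const_mul (d1.fun_sub (d2.const_mul I)), fderiv_fun_sub d1 (d2.const_mul I),
    fderiv_const_mul d2]
  simp [md]

/-- The Bochner inequality for an eigensection. -/
theorem bochner {H : ℂ → Matrix (Fin n) (Fin n) ℂ} {B : Matrix (Fin n) (Fin n) ℂ}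
    (hs : MSmooth H) (hpos : ∀ z, (H z).PosDef)
    (hflat : ∀ z, mdzbar (fun w => (H w)⁻¹ * mdz H w) z =
      B * ((H z)⁻¹ * Bᴴ * H z) - ((H z)⁻¹ * Bᴴ * H z) * B)
    {x : Fin n → ℂ} (hx : B *ᵥ x = 0) (z : ℂ)
    {X X1 X2 X11 X22 β : ℝ}
    (hX : X = (star x ⬝ᵥ H z *ᵥ x).re)
    (hX1 : X1 = (star x ⬝ᵥ md 1 H z *ᵥ x).re)
    (hX2 : X2 = (star x ⬝ᵥ md I H z *ᵥ x).re)
    (hX11 : X11 = (star x ⬝ᵥ md 1 (md 1 H) z *ᵥ x).re)
    (hX22 : X22 = (star x ⬝ᵥ md I (md I H) z *ᵥ x).re)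
    (hβ : β = (star x ⬝ᵥ (H z * B * (H z)⁻¹ * Bᴴ * H z) *ᵥ x).re) :
    4 * β * X ≤ (X11 + X22) * X - (X1 ^ 2 + X2 ^ 2) := by
  have hdet : ∀ w, IsUnit (H w).det := fun w => (Matrix.isUnit_iff_isUnit_det (H w)).1 (hpos w).isUnit
  have hherm : ∀ w, (H w)ᴴ = H w := fun w => (hpos w).isHermitian.eq
  have hGs : MSmooth (fun w => (H w)⁻¹) := hs.inv fun w => (hdet w).ne_zero
  have hGH : ((H z)⁻¹)ᴴ = (H z)⁻¹ := (hpos z).inv.isHermitian.eq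
  have h1 : H z * (H z)⁻¹ = 1 := Matrix.mul_nonsing_inv (H z) (hdet z)
  have h2 : (H z)⁻¹ * H z = 1 := Matrix.nonsing_inv_mul (H z) (hdet z)
  have hfun : (fun w => H w * ((H w)⁻¹ * mdz H w)) = mdz H := by
    funext w
    rw [← Matrix.mul_assoc, Matrix.mul_nonsing_inv (H w) (hdet w), Matrix.one_mul]
  have hP : mdzbar (mdz H) z = mdzbar H z * ((H z)⁻¹ * mdz H z) +
      H z * (B * ((H z)⁻¹ * Bᴴ * H z) - ((H z)⁻¹ * Bᴴ * H z) * B) := by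
    have := mdzbar_mul hs (hGs.mul hs.mdz) z
    rw [hfun, hflat z] at this
    exact this
  rw [← mdz_herm hherm z] at hP
  -- the form of both sides
  have hL : (star x ⬝ᵥ mdzbar (mdz H) z *ᵥ x).re = (X11 + X22) / 4 := by
    have r12 : (star x ⬝ᵥ md 1 (md I H) z *ᵥ x).im = 0 :=
      form_im' (md_herm 1 (fun w => md_herm I hherm w) z) x
    have r21 : (star x ⬝ᵥ md I (md 1 H) z *ᵥ x).im = 0 :=
      form_im' (md_herm I (fun w => md_herm 1 hherm w) z) x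
    rw [mdzbar_eq, md_mdz 1 hs, md_mdz I hs]
    simp only [Matrix.smul_mulVec, Matrix.add_mulVec, Matrix.sub_mulVec, dotProduct_smul,
      dotProduct_add, dotProduct_sub, smul_eq_mul]
    set a := star x ⬝ᵥ md 1 (md 1 H) z *ᵥ x
    set b := star x ⬝ᵥ md 1 (md I H) z *ᵥ x
    set c := star x ⬝ᵥ md I (md 1 H) z *ᵥ x
    set d := star x ⬝ᵥ md I (md I H) z *ᵥ x
    rw [hX11, hX22]
    have : (1 / 2 : ℂ) * (1 / 2 * (a - I * b) + I * (1 / 2 * (c - I * d))) =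
        (1 / 4 : ℝ) * (a + d) + (1 / 4 : ℝ) * (I * (c - b)) := by
      push_cast
      have hI : I * I = -1 := Complex.I_mul_I
      linear_combination (-1 / 4 : ℂ) * d * hI
    rw [this, Complex.add_re, Complex.re_ofReal_mul, Complex.re_ofReal_mul]
    simp [r12, r21]
    ring
  have hR : (star x ⬝ᵥ mdzbar (mdz H) z *ᵥ x).re =
      (star x ⬝ᵥ ((mdz H z)ᴴ * (H z)⁻¹ * mdz H z) *ᵥ x).re + β := by
    have g1 : star x ⬝ᵥ (H z * (B * ((H z)⁻¹ * Bᴴ * H z) - ((H z)⁻¹ * Bᴴ * H z) * B)) *ᵥ x =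
        star x ⬝ᵥ (H z * B * (H z)⁻¹ * Bᴴ * H z) *ᵥ x := by
      have g2 : H z * (B * ((H z)⁻¹ * Bᴴ * H z) - ((H z)⁻¹ * Bᴴ * H z) * B) =
          H z * B * (H z)⁻¹ * Bᴴ * H z - H z * ((H z)⁻¹ * Bᴴ * H z) * B := by
        rw [Matrix.mul_sub]
        simp only [Matrix.mul_assoc]
      rw [g2, Matrix.sub_mulVec, ← Matrix.mulVec_mulVec x _ B, hx, Matrix.mulVec_zero, sub_zero]
    rw [hP, Matrix.add_mulVec, dotProduct_add, Complex.add_re, g1, ← hβ, ← Matrix.mul_assoc]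
  have hcs := cs (hpos z) x (((H z)⁻¹ * mdz H z) *ᵥ x)
  have q1 : star x ⬝ᵥ H z *ᵥ (((H z)⁻¹ * mdz H z) *ᵥ x) = star x ⬝ᵥ mdz H z *ᵥ x := by
    rw [Matrix.mulVec_mulVec, ← Matrix.mul_assoc, h1, Matrix.one_mul]
  have q2 : star (((H z)⁻¹ * mdz H z) *ᵥ x) ⬝ᵥ H z *ᵥ (((H z)⁻¹ * mdz H z) *ᵥ x) =
      star x ⬝ᵥ ((mdz H z)ᴴ * (H z)⁻¹ * mdz H z) *ᵥ x := by
    have hmat : ((H z)⁻¹ * mdz H z)ᴴ * H z * ((H z)⁻¹ * mdz H z) =
        (mdz H z)ᴴ * (H z)⁻¹ * mdz H z := by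
      rw [Matrix.conjTranspose_mul, hGH]
      calc (mdz H z)ᴴ * (H z)⁻¹ * H z * ((H z)⁻¹ * mdz H z) =
          (mdz H z)ᴴ * ((H z)⁻¹ * H z) * (H z)⁻¹ * mdz H z := by simp only [Matrix.mul_assoc]
        _ = (mdz H z)ᴴ * (H z)⁻¹ * mdz H z := by rw [h2, Matrix.mul_one]
    rw [Matrix.star_mulVec, ← Matrix.dotProduct_mulVec, Matrix.mulVec_mulVec,
      Matrix.mulVec_mulVec, hmat]
  rw [q1, q2, ← hX] at hcs
  have hns : Complex.normSq (star x ⬝ᵥ mdz H z *ᵥ x) = (X1 ^ 2 + X2 ^ 2) / 4 := by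
    have r1 : (star x ⬝ᵥ md 1 H z *ᵥ x).im = 0 := form_im' (md_herm 1 hherm z) x
    have r2 : (star x ⬝ᵥ md I H z *ᵥ x).im = 0 := form_im' (md_herm I hherm z) x
    rw [mdz_eq]
    simp only [Matrix.smul_mulVec, Matrix.sub_mulVec, dotProduct_smul, dotProduct_sub,
      smul_eq_mul]
    set a := star x ⬝ᵥ md 1 H z *ᵥ x
    set b := star x ⬝ᵥ md I H z *ᵥ x
    rw [hX1, hX2, Complex.normSq_apply]
    simp [r1, r2]
    ring
  rw [hns] at hcs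
  rw [hL] at hR
  have hX0 : 0 ≤ X := hX ▸ form_re_nonneg (hpos z) x
  set D := (star x ⬝ᵥ ((mdz H z)ᴴ * (H z)⁻¹ * mdz H z) *ᵥ x).re
  have : X11 + X22 = 4 * D + 4 * β := by linarith
  rw [this]
  linarith

theorem md_inv (e : ℂ) {H : ℂ → Matrix (Fin n) (Fin n) ℂ} (hs : MSmooth H)
    (hdet : ∀ w, IsUnit (H w).det) (z : ℂ) :
    md e (fun w => (H w)⁻¹) z = -((H z)⁻¹ * md e H z * (H z)⁻¹) := by
  have hGs : MSmooth (fun w => (H w)⁻¹) := hs.inv fun w => (hdet w).ne_zero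
  have h := md_mul e hGs hs z
  have h1 : (fun w => (H w)⁻¹ * H w) = fun _ => (1 : Matrix (Fin n) (Fin n) ℂ) := by
    funext w
    exact Matrix.nonsing_inv_mul _ (hdet w)
  have h2 : md e (fun _ : ℂ => (1 : Matrix (Fin n) (Fin n) ℂ)) z = 0 := by
    ext i j
    simp [md]
  rw [h1, h2] at h
  have h3 : md e (fun w => (H w)⁻¹) z * H z = -((H z)⁻¹ * md e H z) := by
    rw [eq_neg_iff_add_eq_zero]; exact h.symm
  have h4 := congrArg (fun M => M * (H z)⁻¹) h3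
  simp only [Matrix.mul_assoc, Matrix.mul_nonsing_inv _ (hdet z), Matrix.mul_one,
    Matrix.neg_mul] at h4
  rw [h4, Matrix.mul_assoc]

theorem mdz_inv {H : ℂ → Matrix (Fin n) (Fin n) ℂ} (hs : MSmooth H)
    (hdet : ∀ w, IsUnit (H w).det) (z : ℂ) :
    mdz (fun w => (H w)⁻¹) z = -((H z)⁻¹ * mdz H z * (H z)⁻¹) := by
  rw [mdz_eq, mdz_eq, md_inv 1 hs hdet, md_inv I hs hdet]
  simp only [Matrix.mul_smul, Matrix.smul_mul, Matrix.mul_sub, Matrix.sub_mul, smul_neg,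
    sub_neg_eq_add, smul_sub, neg_sub, smul_add]
  abel

theorem mdzbar_neg {F : ℂ → Matrix (Fin n) (Fin n) ℂ} (z : ℂ) :
    mdzbar (fun w => -(F w)) z = -(mdzbar F z) := by
  ext i j
  simp [mdzbar, dzbar]
  ring

/-- The equation for the dual metric. -/
theorem dual_flat {H : ℂ → Matrix (Fin n) (Fin n) ℂ} {B : Matrix (Fin n) (Fin n) ℂ}
    (hs : MSmooth H) (hpos : ∀ z, (H z).PosDef)
    (hflat : ∀ z, mdzbar (fun w => (H w)⁻¹ * mdz H w) z =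
      B * ((H z)⁻¹ * Bᴴ * H z) - ((H z)⁻¹ * Bᴴ * H z) * B) (z : ℂ) :
    mdzbar (fun w => (((H w)⁻¹)ᵀ)⁻¹ * mdz (fun v => ((H v)⁻¹)ᵀ) w) z =
      Bᵀ * ((((H z)⁻¹)ᵀ)⁻¹ * (Bᵀ)ᴴ * ((H z)⁻¹)ᵀ) -
        ((((H z)⁻¹)ᵀ)⁻¹ * (Bᵀ)ᴴ * ((H z)⁻¹)ᵀ) * Bᵀ := by
  have hdet : ∀ w, IsUnit (H w).det := fun w =>
    (Matrix.isUnit_iff_isUnit_det (H w)).1 (hpos w).isUnit
  have hinv : ∀ w, (((H w)⁻¹)ᵀ)⁻¹ = (H w)ᵀ := by
    intro w
    rw [← Matrix.transpose_nonsing_inv, Matrix.nonsing_inv_nonsing_inv _ (hdet w)]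
  have hfun : (fun w => (((H w)⁻¹)ᵀ)⁻¹ * mdz (fun v => ((H v)⁻¹)ᵀ) w) =
      fun w => (-((H w)⁻¹ * mdz H w))ᵀ := by
    funext w
    rw [hinv, mdz_transpose, mdz_inv hs hdet, ← Matrix.transpose_mul]
    congr 1
    rw [Matrix.neg_mul, Matrix.mul_assoc, Matrix.nonsing_inv_mul _ (hdet w), Matrix.mul_one]
  rw [hfun, mdzbar_transpose (F := fun w => -((H w)⁻¹ * mdz H w)), mdzbar_neg, hflat, hinv]
  have hBc : (Bᵀ)ᴴ = (Bᴴ)ᵀ := by
    ext i j; simp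
  rw [hBc]
  simp only [Matrix.transpose_neg, Matrix.transpose_sub, Matrix.transpose_mul, Matrix.mul_assoc]
  abel

theorem form_transpose (M : Matrix (Fin n) (Fin n) ℂ) (y : Fin n → ℂ) :
    star y ⬝ᵥ Mᵀ *ᵥ y = y ⬝ᵥ M *ᵥ star y := by
  rw [Matrix.mulVec_transpose, dotProduct_comm, ← Matrix.dotProduct_mulVec]

/-- No metric. -/
theorem no_metric {H : ℂ → Matrix (Fin n) (Fin n) ℂ} {B : Matrix (Fin n) (Fin n) ℂ}
    (hs : MSmooth H) (hpos : ∀ z, (H z).PosDef)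
    (hflat : ∀ z, mdzbar (fun w => (H w)⁻¹ * mdz H w) z =
      B * ((H z)⁻¹ * Bᴴ * H z) - ((H z)⁻¹ * Bᴴ * H z) * B)
    {x y : Fin n → ℂ} (hBx : B *ᵥ x = 0) (hyB : Bᵀ *ᵥ y = 0)
    (hN : (3 : ℂ) • B - B * B = vecMulVec x y) (hx : x ≠ 0) (hy : y ≠ 0) : False := by
  have hdet : ∀ w, IsUnit (H w).det := fun w =>
    (Matrix.isUnit_iff_isUnit_det (H w)).1 (hpos w).isUnit
  have hGs : MSmooth (fun w => (H w)⁻¹) := hs.inv fun w => (hdet w).ne_zero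
  have hGs' : MSmooth (fun w => ((H w)⁻¹)ᵀ) := fun i j => hGs j i
  have hpos' : ∀ z, (((H z)⁻¹)ᵀ).PosDef := fun z => (hpos z).inv.transpose
  have hinv : ∀ w, (((H w)⁻¹)ᵀ)⁻¹ = (H w)ᵀ := by
    intro w
    rw [← Matrix.transpose_nonsing_inv, Matrix.nonsing_inv_nonsing_inv _ (hdet w)]
  have hBc : (Bᵀ)ᴴ = (Bᴴ)ᵀ := by
    ext i j; simp
  obtain ⟨X0, X1⟩ := hasFDerivAt_form hs x
  obtain ⟨Y0, Y1⟩ := hasFDerivAt_form hGs' y
  have X2 : ∀ e, ∀ z, fderiv ℝ (fun w => fderiv ℝ (fun z => (star x ⬝ᵥ H z *ᵥ x).re) w e) z e =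
      (star x ⬝ᵥ md e (md e H) z *ᵥ x).re := by
    intro e z
    have h1 : (fun w => fderiv ℝ (fun z => (star x ⬝ᵥ H z *ᵥ x).re) w e) =
        fun w => (star x ⬝ᵥ md e H w *ᵥ x).re := by
      funext w; exact X1 w e
    rw [h1, (hasFDerivAt_form (hs.md e) x).2 z e]
  have Y2 : ∀ e, ∀ z,
      fderiv ℝ (fun w => fderiv ℝ (fun z => (star y ⬝ᵥ ((H z)⁻¹)ᵀ *ᵥ y).re) w e) z e =
      (star y ⬝ᵥ md e (md e (fun z => ((H z)⁻¹)ᵀ)) z *ᵥ y).re := by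
    intro e z
    have h1 : (fun w => fderiv ℝ (fun z => (star y ⬝ᵥ ((H z)⁻¹)ᵀ *ᵥ y).re) w e) =
        fun w => (star y ⬝ᵥ md e (fun z => ((H z)⁻¹)ᵀ) w *ᵥ y).re := by
      funext w; exact Y1 w e
    rw [h1, (hasFDerivAt_form (hGs'.md e) y).2 z e]
  refine liouville X0 Y0 (fun z => (Complex.lt_def.1 ((hpos z).dotProduct_mulVec_pos hx)).1)
    (fun z => (Complex.lt_def.1 ((hpos' z).dotProduct_mulVec_pos hy)).1) ?_
  intro z
  have b1 := bochner hs hpos hflat hBx z rfl rfl rfl rfl rfl rfl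
  have b2 := bochner hGs' hpos' (dual_flat hs hpos hflat) hyB z rfl rfl rfl rfl rfl rfl
  have hYeq : (star y ⬝ᵥ ((H z)⁻¹)ᵀ *ᵥ y).re = (y ⬝ᵥ (H z)⁻¹ *ᵥ star y).re := by
    rw [form_transpose]
  have hβeq : (star y ⬝ᵥ (((H z)⁻¹)ᵀ * Bᵀ * (((H z)⁻¹)ᵀ)⁻¹ * (Bᵀ)ᴴ * ((H z)⁻¹)ᵀ) *ᵥ y).re =
      (y ⬝ᵥ ((H z)⁻¹ * Bᴴ * H z * B * (H z)⁻¹) *ᵥ star y).re := by
    have hmat : ((H z)⁻¹)ᵀ * Bᵀ * (((H z)⁻¹)ᵀ)⁻¹ * (Bᵀ)ᴴ * ((H z)⁻¹)ᵀ =
        ((H z)⁻¹ * Bᴴ * H z * B * (H z)⁻¹)ᵀ := by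
      rw [hinv, hBc]
      simp only [Matrix.transpose_mul, Matrix.mul_assoc]
    rw [hmat, form_transpose]
  obtain ⟨hXp, hYp, hα, hβ, hmin⟩ := alg_ineq (hpos z) hN hx hy
    (X := (star x ⬝ᵥ H z *ᵥ x).re) (Y := (star y ⬝ᵥ ((H z)⁻¹)ᵀ *ᵥ y).re)
    (α := (star x ⬝ᵥ (H z * B * (H z)⁻¹ * Bᴴ * H z) *ᵥ x).re)
    (β := (star y ⬝ᵥ (((H z)⁻¹)ᵀ * Bᵀ * (((H z)⁻¹)ᵀ)⁻¹ * (Bᵀ)ᴴ * ((H z)⁻¹)ᵀ) *ᵥ y).re)
    rfl hYeq rfl hβeq
  rw [X1, X1, X2, X2, Y1, Y1, Y2, Y2]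
  set X := (star x ⬝ᵥ H z *ᵥ x).re
  set Y := (star y ⬝ᵥ ((H z)⁻¹)ᵀ *ᵥ y).re
  set α := (star x ⬝ᵥ (H z * B * (H z)⁻¹ * Bᴴ * H z) *ᵥ x).re
  set β := (star y ⬝ᵥ (((H z)⁻¹)ᵀ * Bᵀ * (((H z)⁻¹)ᵀ)⁻¹ * (Bᵀ)ᴴ * ((H z)⁻¹)ᵀ) *ᵥ y).re
  have c1 : 4 * (α / X) ≤ (((star x ⬝ᵥ md 1 (md 1 H) z *ᵥ x).re +
      (star x ⬝ᵥ md I (md I H) z *ᵥ x).re) * X -
      ((star x ⬝ᵥ md 1 H z *ᵥ x).re ^ 2 + (star x ⬝ᵥ md I H z *ᵥ x).re ^ 2)) / X ^ 2 := by
    rw [le_div_iff₀ (by positivity)]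
    calc 4 * (α / X) * X ^ 2 = 4 * α * X := by field_simp
      _ ≤ _ := b1
  have c2 : 4 * (β / Y) ≤ (((star y ⬝ᵥ md 1 (md 1 (fun z => ((H z)⁻¹)ᵀ)) z *ᵥ y).re +
      (star y ⬝ᵥ md I (md I (fun z => ((H z)⁻¹)ᵀ)) z *ᵥ y).re) * Y -
      ((star y ⬝ᵥ md 1 (fun z => ((H z)⁻¹)ᵀ) z *ᵥ y).re ^ 2 +
        (star y ⬝ᵥ md I (fun z => ((H z)⁻¹)ᵀ) z *ᵥ y).re ^ 2)) / Y ^ 2 := by
    rw [le_div_iff₀ (by positivity)]
    calc 4 * (β / Y) * Y ^ 2 = 4 * β * Y := by field_simp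
      _ ≤ _ := b2
  linarith

end Pool.Agent.V11191.HB
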