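import Pool.Agent.W979.HS.Count

/-!
Generalisation of `Pool.Agent.W979.HS.machine_access` from the usual digits of a real number to
arbitrary sequences of integers (for instance expansions with signed digits), and a logarithmic
lower bound for the failures of the relations `g_k = g_(k+P)` for expansions of numbers which are
not Liouville numbers.
-/

set_option autoImplicit false

namespace Pool.Agent.V11191.HS

open Finset Filter Pool.Agent.W979.HS

/-- counting: a list which codes, from the place `s` on, the terms `g 1, g 2, …` -/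
theorem count_le' (g : ℕ → ℤ) (φ : ℕ → ℤ) (s P N : ℕ) (w : List ℕ)
    (hN : N ≤ w.length) (hw : ∀ i d, w[s + i]? = some d → φ d = g (i + 1)) :
    ((Icc 1 N).filter (fun k : ℕ => g (k + P) ≠ g k)).card ≤ P + s + dfc P w := by
  have hsub : ((Icc 1 N).filter (fun k : ℕ => g (k + P) ≠ g k)) ⊆
      Ioc (N - (P + s)) N ∪
        ((range w.length).filter (fun i => i + P < w.length ∧ w[i + P]? ≠ w[i]?)).image
          (fun i => i + 1 - s) := by
    intro k hk
    rw [mem_filter, mem_Icc] at hk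
    obtain ⟨⟨hk1, hk2⟩, hk3⟩ := hk
    rw [mem_union, mem_Ioc, mem_image]
    rcases lt_or_ge (N - (P + s)) k with h | h
    · exact Or.inl ⟨h, hk2⟩
    · right
      refine ⟨s + (k - 1), ?_, by omega⟩
      rw [mem_filter, mem_range]
      have h1 : s + (k - 1) + P < w.length := by omega
      refine ⟨by omega, h1, ?_⟩
      intro heq
      apply hk3
      have e1 : w[s + (k - 1)]? = some w[s + (k - 1)] := List.getElem?_eq_getElem (by omega)
      have e2 : w[s + (k - 1 + P)]? = some w[s + (k - 1 + P)] :=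
        List.getElem?_eq_getElem (by omega)
      have d1 := hw _ _ e1
      have d2 := hw _ _ e2
      rw [Nat.add_assoc] at heq
      rw [heq, e1] at e2
      have e3 := Option.some.inj e2
      rw [show k - 1 + 1 = k by omega] at d1
      rw [show k - 1 + P + 1 = k + P by omega] at d2
      rw [← d1, ← d2, ← e3]
  refine (card_le_card hsub).trans ((card_union_le _ _).trans ?_)
  refine Nat.add_le_add ?_ (card_image_le.trans le_rfl)
  rw [Nat.card_Ioc]
  omega

open Classical in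
/-- one stack, arbitrary interventions from outside -/
theorem access' (g : ℕ → ℤ) (φ : ℕ → ℤ) (f : ℕ → ℝ) (hf : Tendsto f atTop atTop)
    (hrel : ∀ P : ℕ, 1 ≤ P → ∃ c : ℝ, 0 < c ∧ ∃ N0 : ℕ, ∀ N : ℕ, N0 ≤ N →
      c * f N ≤ (((Icc 1 N).filter (fun k : ℕ => g (k + P) ≠ g k)).card : ℝ))
    {Q Γ : Type} [Fintype Q] [Fintype Γ] (M : Prog Q Γ) (s : ℕ) :
    ∃ c : ℝ, 0 < c ∧ ∃ N0 : ℕ, ∀ (q : ℕ → Q) (S : ℕ → List Γ) (ev : ℕ → Prop),
      Traj M q S ev →
      (∀ T i d, (written M q S T)[s + i]? = some d → φ d = g (i + 1)) →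
      ∀ N T : ℕ, N0 ≤ N → N ≤ (written M q S T).length →
        c * f N ≤ (((range T).filter ev).card : ℝ) := by
  obtain ⟨LO, C3, hmain⟩ := M.main
  set P := LO.factorial with hPdef
  have hP : 1 ≤ P := Nat.one_le_iff_ne_zero.2 (Nat.factorial_ne_zero _)
  obtain ⟨c, hc, N0, hN0⟩ := hrel P hP
  obtain ⟨c', hc', N1, hN1, habs⟩ := absorb f hf c ((P : ℝ) + s + C3 * P) hc (by positivity) N0
  refine ⟨c', hc', N1, fun q S ev htr hw N T hN hlen => ?_⟩
  refine habs N hN _ ((hN0 N (hN1.trans hN)).trans ?_)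
  have h1 := count_le' g φ s P N _ hlen (hw T)
  have h2 := (hmain q S ev htr T).dfc_le (dvd_fact LO)
  set E := ((range T).filter ev).card
  have h3 : P + s + dfc P (written M q S T) ≤ P + s + C3 * (E + 1) * P := by
    rw [hPdef]
    omega
  have h4 : ((P + s + C3 * (E + 1) * P : ℕ) : ℝ) ≤ ((P : ℝ) + s + C3 * P) * (E + 1) := by
    push_cast
    have hE : (0 : ℝ) ≤ E := Nat.cast_nonneg _
    have hPs : (0 : ℝ) ≤ (P : ℝ) + s := by positivity
    nlinarith [mul_nonneg hPs hE]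
  exact (Nat.cast_le.2 (h1.trans h3)).trans h4

open Classical in
/-- machines with several stacks -/
theorem machine_access' (g : ℕ → ℤ) (φ : ℕ → ℤ) (f : ℕ → ℝ) (hf : Tendsto f atTop atTop)
    (hrel : ∀ P : ℕ, 1 ≤ P → ∃ c : ℝ, 0 < c ∧ ∃ N0 : ℕ, ∀ N : ℕ, N0 ≤ N →
      c * f N ≤ (((Icc 1 N).filter (fun k : ℕ => g (k + P) ≠ g k)).card : ℝ))
    (M : StackMachine) (k₀ : M.ι) (s : ℕ)
    (hw : ∀ T i d, (M.output T)[s + i]? = some d → φ d = g (i + 1)) :
    ∃ c : ℝ, 0 < c ∧ ∃ N0 : ℕ, ∀ N T : ℕ, N0 ≤ N → N ≤ (M.output T).length →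
      c * f N ≤ (((range T).filter (M.PopOutside k₀)).card : ℝ) := by
  obtain ⟨c, hc, N0, h⟩ := access' g φ f hf hrel (M.prog k₀) s
  refine ⟨c, hc, N0, fun N T hN hlen => ?_⟩
  refine h (M.st k₀) (fun t => (M.conf t).2 k₀) (M.PopOutside k₀) (M.traj k₀) ?_ N T hN ?_
  · intro T i d hd
    rw [M.written_eq k₀ T] at hd
    exact hw T i d hd
  · rw [M.written_eq k₀ T]; exact hlen

/-- conversion of the form of the relation -/
theorem rel_conv (g : ℕ → ℤ) (P : ℕ) (hP : 1 ≤ P) (N : ℕ) :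
    ((Icc 1 N).filter (fun k : ℕ =>
      ∑ j ∈ range (P + 1), (if j = 0 then (1 : ℤ) else if j = P then -1 else 0) *
        g (k + j) ≠ 0)) = (Icc 1 N).filter (fun k : ℕ => g (k + P) ≠ g k) := by
  apply Finset.filter_congr
  intro k _
  rw [rel_sum P hP]
  constructor
  · intro h h2
    exact h (by rw [h2, sub_self])
  · intro h h2
    exact h (by omega)

/-! ### expansions of numbers which are not Liouville numbers -/

/-- the integers `U_k = ∑_{j ≤ k} g_j b^(k-j)` -/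
def U (b : ℕ) (g : ℕ → ℤ) : ℕ → ℤ
  | 0 => g 0
  | k + 1 => b * U b g k + g (k + 1)

theorem U_eq (b : ℕ) (hb : 2 ≤ b) (g : ℕ → ℤ) (k : ℕ) :
    (U b g k : ℝ) = (b : ℝ) ^ k * ∑ j ∈ range (k + 1), (g j : ℝ) / (b : ℝ) ^ j := by
  have hb0 : (b : ℝ) ≠ 0 := by
    have : b ≠ 0 := by omega
    exact_mod_cast this
  induction k with
  | zero => simp [U]
  | succ k ih =>
    rw [sum_range_succ, mul_add, U]
    push_cast
    rw [ih]
    field_simp
    ring

theorem U_near (b : ℕ) (hb : 2 ≤ b) (g : ℕ → ℤ) (G : ℤ) (hg : ∀ k, |g k| ≤ G) (x : ℝ)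
    (hs : HasSum (fun k : ℕ => (g k : ℝ) / (b : ℝ) ^ k) x) (k : ℕ) :
    |(b : ℝ) ^ k * x - U b g k| ≤ G := by
  have hbR : (2 : ℝ) ≤ b := by exact_mod_cast hb
  have hb0 : (0 : ℝ) < b := by linarith
  have hG0 : (0 : ℝ) ≤ G := by
    have : (0 : ℤ) ≤ G := (abs_nonneg _).trans (hg 0)
    exact_mod_cast this
  have h1 : x - ∑ j ∈ range (k + 1), (g j : ℝ) / (b : ℝ) ^ j =
      ∑' j, (g (j + (k + 1)) : ℝ) / (b : ℝ) ^ (j + (k + 1)) := by
    have := hs.summable.sum_add_tsum_nat_add (k + 1)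
    rw [← hs.tsum_eq, ← this]
    ring
  have hgeo : HasSum (fun j : ℕ => (G : ℝ) / (b : ℝ) ^ (k + 1) * (1 / (b : ℝ)) ^ j)
      ((G : ℝ) / (b : ℝ) ^ (k + 1) * (1 - 1 / (b : ℝ))⁻¹) := by
    apply HasSum.mul_left
    apply hasSum_geometric_of_lt_one (by positivity)
    rw [div_lt_one hb0]; linarith
  have h2 : |x - ∑ j ∈ range (k + 1), (g j : ℝ) / (b : ℝ) ^ j| ≤
      (G : ℝ) / (b : ℝ) ^ (k + 1) * (1 - 1 / (b : ℝ))⁻¹ := by
    rw [h1]
    have := tsum_of_norm_bounded hgeo (f := fun j => (g (j + (k + 1)) : ℝ) /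
      (b : ℝ) ^ (j + (k + 1))) (fun j => by
        rw [Real.norm_eq_abs, abs_div, abs_of_pos (pow_pos hb0 _)]
        have h3 : |(g (j + (k + 1)) : ℝ)| ≤ G := by
          have := hg (j + (k + 1))
          exact_mod_cast this
        rw [one_div, inv_pow, ← div_eq_mul_inv, div_div, ← pow_add, Nat.add_comm (k + 1) j]
        exact div_le_div_of_nonneg_right h3 (pow_pos hb0 _).le)
    rwa [Real.norm_eq_abs] at this
  rw [U_eq b hb, ← mul_sub, abs_mul, abs_of_pos (pow_pos hb0 k)]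
  calc (b : ℝ) ^ k * |x - ∑ j ∈ range (k + 1), (g j : ℝ) / (b : ℝ) ^ j|
      ≤ (b : ℝ) ^ k * ((G : ℝ) / (b : ℝ) ^ (k + 1) * (1 - 1 / (b : ℝ))⁻¹) := by
        apply mul_le_mul_of_nonneg_left h2 (by positivity)
    _ = G / (b - 1) := by
        have hb1 : (b : ℝ) - 1 ≠ 0 := by linarith
        field_simp
        ring
    _ ≤ G := by
        rw [div_le_iff₀ (by linarith)]
        nlinarith

/-- a block without failures multiplies the difference by a power of `b` -/
theorem U_step (b : ℕ) (g : ℕ → ℤ) (P m : ℕ) (n : ℕ)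
    (h : ∀ k, m < k → k ≤ m + n → g (k + P) = g k) :
    U b g (m + n + P) - U b g (m + n) = (b : ℤ) ^ n * (U b g (m + P) - U b g m) := by
  induction n with
  | zero => simp
  | succ n ih =>
    have h1 := ih (fun k hk hk' => h k hk (by omega))
    have h2 := h (m + n + 1) (by omega) (by omega)
    rw [show m + (n + 1) + P = (m + n + P) + 1 by ring, show m + (n + 1) = (m + n) + 1 by ring,
      U, U, pow_succ]
    rw [show m + n + P + 1 = m + n + 1 + P by ring, h2]
    linear_combination (b : ℤ) * h1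

/-- the bound for the length of a block without failures -/
theorem block_le (b : ℕ) (hb : 2 ≤ b) (g : ℕ → ℤ) (G : ℤ) (hg : ∀ k, |g k| ≤ G) (x : ℝ)
    (hx : Irrational x) (hL : ¬ Liouville x)
    (hs : HasSum (fun k : ℕ => (g k : ℝ) / (b : ℝ) ^ k) x) (P : ℕ) (hP : 1 ≤ P) :
    ∃ K : ℕ, 2 ≤ K ∧ ∀ m : ℕ, 1 ≤ m → ∃ k, m < k ∧ k ≤ K * m ∧ g (k + P) ≠ g k := by
  have hbR : (2 : ℝ) ≤ b := by exact_mod_cast hb
  have hb0 : (0 : ℝ) < b := by linarith
  unfold Liouville at hL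
  push Not at hL
  obtain ⟨n, hn⟩ := hL
  obtain ⟨r, hr⟩ : ∃ r : ℕ, (2 * (G : ℝ) + 1) ≤ (b : ℝ) ^ r :=
    (pow_unbounded_of_one_lt (2 * (G : ℝ) + 1) (by linarith : (1 : ℝ) < b)).imp fun _ h => h.le
  have hG0 : (0 : ℝ) ≤ G := by
    have : (0 : ℤ) ≤ G := (abs_nonneg _).trans (hg 0)
    exact_mod_cast this
  refine ⟨2 + r + n * (P + 1), by omega, fun m hm => ?_⟩
  by_contra hcon
  push Not at hcon
  -- length of the block
  set l := r + n * (P + m) with hl
  have hle : m + l ≤ (2 + r + n * (P + 1)) * m := by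
    rw [hl]
    have e1 : r ≤ r * m := Nat.le_mul_of_pos_right _ hm
    have e2 : n * (P + m) ≤ n * (P + 1) * m := by
      have : P + m ≤ (P + 1) * m := by nlinarith
      calc n * (P + m) ≤ n * ((P + 1) * m) := Nat.mul_le_mul_left _ this
        _ = _ := by ring
    nlinarith
  have h1 := U_step b g P m l (fun k hk hk' => hcon k hk (by omega))
  have hbP : (2 : ℤ) ≤ (b : ℤ) ^ P := by
    calc (2 : ℤ) ≤ b := by exact_mod_cast hb
      _ ≤ (b : ℤ) ^ P := by exact_mod_cast Nat.le_self_pow (by omega) b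
  set q : ℤ := (b : ℤ) ^ m * ((b : ℤ) ^ P - 1) with hq
  have hbm : (2 : ℤ) ≤ (b : ℤ) ^ m := by
    calc (2 : ℤ) ≤ b := by exact_mod_cast hb
      _ ≤ (b : ℤ) ^ m := by exact_mod_cast Nat.le_self_pow (by omega) b
  have hq1 : 1 < q := by
    rw [hq]; nlinarith
  have h2 := hn (U b g (m + P) - U b g m) q hq1 (by
    intro h
    exact hx ⟨((U b g (m + P) - U b g m : ℤ) : ℚ) / q, by push_cast at h ⊢; exact h.symm⟩)
  have hqR : (0 : ℝ) < q := by
    have : (0 : ℤ) < q := by omega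
    exact_mod_cast this
  have h3 : |(q : ℝ) * x - (U b g (m + P) - U b g m : ℤ)| * (b : ℝ) ^ l ≤ 2 * G := by
    have e1 := U_near b hb g G hg x hs (m + l)
    have e2 := U_near b hb g G hg x hs (m + l + P)
    have h1R : ((U b g (m + l + P) : ℤ) : ℝ) - U b g (m + l) =
        (b : ℝ) ^ l * ((U b g (m + P) : ℝ) - U b g m) := by exact_mod_cast h1
    have e3 : ((q : ℝ) * x - (U b g (m + P) - U b g m : ℤ)) * (b : ℝ) ^ l =
        ((b : ℝ) ^ (m + l + P) * x - U b g (m + l + P)) -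
          ((b : ℝ) ^ (m + l) * x - U b g (m + l)) := by
      rw [hq]
      push_cast
      rw [pow_add, pow_add]
      linear_combination h1R
    rw [← abs_of_pos (pow_pos hb0 l), ← abs_mul, e3]
    refine (abs_sub _ _).trans ?_
    linarith
  have h4 : |x - ((U b g (m + P) - U b g m : ℤ) : ℝ) / q| * q =
      |(q : ℝ) * x - (U b g (m + P) - U b g m : ℤ)| := by
    rw [← abs_of_pos hqR, ← abs_mul, abs_of_pos hqR]
    congr 1
    field_simp
  have h5 : (1 : ℝ) ≤ |x - ((U b g (m + P) - U b g m : ℤ) : ℝ) / q| * (q : ℝ) ^ n := by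
    have := h2
    rw [div_le_iff₀ (pow_pos hqR n)] at this
    exact this
  -- combine
  have hq2 : (q : ℝ) ≤ (b : ℝ) ^ (P + m) := by
    rw [hq]
    push_cast
    rw [pow_add]
    have : (0 : ℝ) < (b : ℝ) ^ m := pow_pos hb0 m
    nlinarith
  have h6 : (b : ℝ) ^ l = (b : ℝ) ^ r * ((b : ℝ) ^ (P + m)) ^ n := by
    rw [hl, pow_add, ← pow_mul, Nat.mul_comm n (P + m)]
  have h7 : (q : ℝ) ^ n ≤ ((b : ℝ) ^ (P + m)) ^ n := pow_le_pow_left₀ hqR.le hq2 n
  have h8 : (1 : ℝ) ≤ q := by exact_mod_cast hq1.le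
  rw [← h4, h6] at h3
  set A := |x - ((U b g (m + P) - U b g m : ℤ) : ℝ) / q| with hA
  have hA0 : 0 ≤ A := abs_nonneg _
  have h9 : (b : ℝ) ^ r ≤ A * q * ((b : ℝ) ^ r * ((b : ℝ) ^ (P + m)) ^ n) := by
    have hr0 : (0 : ℝ) < (b : ℝ) ^ r := pow_pos hb0 r
    calc (b : ℝ) ^ r = (b : ℝ) ^ r * 1 := (mul_one _).symm
      _ ≤ (b : ℝ) ^ r * (A * (q : ℝ) ^ n) := by apply mul_le_mul_of_nonneg_left h5 hr0.le
      _ ≤ (b : ℝ) ^ r * (A * ((b : ℝ) ^ (P + m)) ^ n) := by
          apply mul_le_mul_of_nonneg_left _ hr0.le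
          exact mul_le_mul_of_nonneg_left h7 hA0
      _ = (A * ((b : ℝ) ^ r * ((b : ℝ) ^ (P + m)) ^ n)) * 1 := by ring
      _ ≤ (A * ((b : ℝ) ^ r * ((b : ℝ) ^ (P + m)) ^ n)) * q := by
          apply mul_le_mul_of_nonneg_left h8
          positivity
      _ = _ := by ring
  linarith

/-- logarithmic lower bound for the failures of the relation `g_k = g_(k+P)` -/
theorem fail_log (b : ℕ) (hb : 2 ≤ b) (g : ℕ → ℤ) (G : ℤ) (hg : ∀ k, |g k| ≤ G) (x : ℝ)
    (hx : Irrational x) (hL : ¬ Liouville x)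
    (hs : HasSum (fun k : ℕ => (g k : ℝ) / (b : ℝ) ^ k) x) (P : ℕ) (hP : 1 ≤ P) :
    ∃ c : ℝ, 0 < c ∧ ∃ N0 : ℕ, ∀ N : ℕ, N0 ≤ N →
      c * Real.log N ≤ (((Icc 1 N).filter (fun k : ℕ => g (k + P) ≠ g k)).card : ℝ) := by
  obtain ⟨K, hK, hblock⟩ := block_le b hb g G hg x hx hL hs P hP
  have hKR : (2 : ℝ) ≤ K := by exact_mod_cast hK
  have hlK : 0 < Real.log K := Real.log_pos (by linarith)
  have hpow : ∀ j : ℕ, j ≤ ((Icc 1 (K ^ j)).filter (fun k : ℕ => g (k + P) ≠ g k)).card := by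
    intro j
    induction j with
    | zero => simp
    | succ j ih =>
      obtain ⟨k, hk1, hk2, hk3⟩ := hblock (K ^ j) (Nat.one_le_pow _ _ (by omega))
      have hsub : insert k ((Icc 1 (K ^ j)).filter (fun k : ℕ => g (k + P) ≠ g k)) ⊆
          ((Icc 1 (K ^ (j + 1))).filter (fun k : ℕ => g (k + P) ≠ g k)) := by
        intro t ht
        rw [mem_insert] at ht
        have e : K ^ (j + 1) = K * K ^ j := by ring
        rcases ht with rfl | ht
        · rw [mem_filter, mem_Icc]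
          have : 1 ≤ K ^ j := Nat.one_le_pow _ _ (by omega)
          exact ⟨⟨by omega, by rw [e]; exact hk2⟩, hk3⟩
        · rw [mem_filter, mem_Icc] at ht ⊢
          refine ⟨⟨ht.1.1, ht.1.2.trans ?_⟩, ht.2⟩
          rw [e]
          exact Nat.le_mul_of_pos_left _ (by omega)
      have hnot : k ∉ ((Icc 1 (K ^ j)).filter (fun k : ℕ => g (k + P) ≠ g k)) := by
        intro h
        rw [mem_filter, mem_Icc] at h
        omega
      have := card_le_card hsub
      rw [card_insert_of_notMem hnot] at this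
      omega
  refine ⟨1 / (2 * Real.log K), by positivity, K ^ 1, fun N hN => ?_⟩
  have hN1 : 1 ≤ N := le_trans (Nat.one_le_pow _ _ (by omega)) hN
  set j := Nat.log K N with hj
  have hj1 : 1 ≤ j := by
    rw [hj]
    exact (Nat.le_log_iff_pow_le (by omega) (by omega)).2 hN
  have h1 : K ^ j ≤ N := Nat.pow_log_le_self K (by omega)
  have h2 : N < K ^ (j + 1) := Nat.lt_pow_succ_log_self (by omega) N
  have h3 : j ≤ ((Icc 1 N).filter (fun k : ℕ => g (k + P) ≠ g k)).card := by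
    refine (hpow j).trans (card_le_card ?_)
    apply filter_subset_filter
    exact Icc_subset_Icc_right h1
  have h4 : Real.log N ≤ (j + 1) * Real.log K := by
    have h5 : (N : ℝ) ≤ (K : ℝ) ^ (j + 1) := by exact_mod_cast h2.le
    have h6 := Real.log_le_log (by exact_mod_cast hN1) h5
    rw [Real.log_pow] at h6
    push_cast at h6
    exact h6
  have h5 : (j : ℝ) ≤ (((Icc 1 N).filter (fun k : ℕ => g (k + P) ≠ g k)).card : ℝ) := by
    exact_mod_cast h3
  refine le_trans ?_ h5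
  rw [div_mul_eq_mul_div, one_mul, div_le_iff₀ (by positivity)]
  have h6 : (1 : ℝ) ≤ j := by exact_mod_cast hj1
  nlinarith

end Pool.Agent.V11191.HS
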